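import Pool.Agent.Helper42_OD.Defs

/-! Module LOW of squad OD: the lower bound for the number of colours. -/

set_option autoImplicit false

open MeasureTheory ProbabilityTheory Set

namespace Pool.Agent.OD.H54L

variable {d q : ℕ}

/-- No site of `L` has colour `c`. -/
def ev (c : Fin q) (L : Finset (Fin d → ℤ)) : Set ((Fin d → ℤ) → Fin q) :=
  {x | ∀ v ∈ L, x v ≠ c}

lemma meas_eq (c : Fin q) (v : Fin d → ℤ) :
    MeasurableSet {x : (Fin d → ℤ) → Fin q | x v = c} := by
  have h : Measurable (fun x : (Fin d → ℤ) → Fin q => x v) := measurable_pi_apply v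
  exact h (MeasurableSet.singleton c)

lemma meas_ev (c : Fin q) (L : Finset (Fin d → ℤ)) : MeasurableSet (ev c L) := by
  have : ev c L = ⋂ v ∈ L, {x : (Fin d → ℤ) → Fin q | x v = c}ᶜ := by
    ext x
    simp [ev]
  rw [this]
  exact Finset.measurableSet_biInter L fun v _ => (meas_eq c v).compl

/-- The probability of `ev`. -/
noncomputable def ZZ (μ : Measure ((Fin d → ℤ) → Fin q)) (c : Fin q)
    (L : Finset (Fin d → ℤ)) : ℝ := μ.real (ev c L)

lemma ZZ_anti (μ : Measure ((Fin d → ℤ) → Fin q)) [IsProbabilityMeasure μ] (c : Fin q)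
    (L M : Finset (Fin d → ℤ)) (h : L ⊆ M) : ZZ μ c M ≤ ZZ μ c L :=
  measureReal_mono (fun _ hx v hv => hx v (h hv))

lemma prob_site (μ : Measure ((Fin d → ℤ) → Fin q)) (hμ : IsOneDep d q μ) (c : Fin q)
    (v : Fin d → ℤ) : μ.real {x | x v = c} = μ.real {x | x 0 = c} := by
  have h := hμ.stat v
  have hm : Measurable (fun (x : (Fin d → ℤ) → Fin q) w => x (w + v)) :=
    measurable_pi_lambda _ fun w => measurable_pi_apply (w + v)
  have h2 : μ {x | x 0 = c} = μ {x | x v = c} := by
    conv_lhs => rw [← h]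
    rw [Measure.map_apply hm (meas_eq c 0)]
    congr 1
    ext x
    simp
  rw [measureReal_def, measureReal_def, h2]

open Classical in
lemma ZZ_rec (μ : Measure ((Fin d → ℤ) → Fin q)) (hμ : IsOneDep d q μ) (c : Fin q)
    (L : Finset (Fin d → ℤ)) (v : Fin d → ℤ) (hv : v ∉ L) :
    ZZ μ c (insert v L) = ZZ μ c L -
      μ.real {x | x 0 = c} * ZZ μ c (L.filter fun w => ¬ LAdj v w) := by
  have := hμ.prob
  set L' := L.filter fun w => ¬ LAdj v w with hL'
  have h1 : μ.real (ev c L ∩ {x | x v = c}) + μ.real (ev c L \ {x | x v = c}) = ZZ μ c L :=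
    measureReal_inter_add_sdiff (meas_eq c v)
  have h2 : ev c L \ {x | x v = c} = ev c (insert v L) := by
    ext x
    simp only [ev, mem_sdiff, mem_ofPred_eq, Finset.mem_insert, forall_eq_or_imp]
    tauto
  have h3 : μ.real (ev c L ∩ {x | x v = c}) = μ.real ({x | x v = c} ∩ ev c L') := by
    apply measureReal_congr
    filter_upwards [hμ.proper] with x hx
    apply propext
    constructor
    · rintro ⟨h4, h5⟩
      exact ⟨h5, fun w hw => h4 w (Finset.mem_filter.1 hw).1⟩
    · rintro ⟨h5, h4⟩
      refine ⟨fun w hw => ?_, h5⟩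
      by_cases ha : LAdj v w
      · intro h6
        have h5' : x v = c := h5
        exact hx v w ha (h5'.trans h6.symm)
      · exact h4 w (Finset.mem_filter.2 ⟨hw, ha⟩)
  have h4 : μ.real ({x | x v = c} ∩ ev c L') = μ.real {x | x v = c} * ZZ μ c L' := by
    have hi := hμ.indep {v} {w | w ∈ L'} (by
      intro u hu w hw
      have hu' : u = v := hu
      have hw' : w ∈ L.filter fun w => ¬ LAdj v w := hw
      rw [Finset.mem_filter] at hw'
      subst hu'
      exact ⟨fun h => hv (h ▸ hw'.1), hw'.2⟩)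
    have hi2 := hi.measure_inter_preimage_eq_mul
      {y : ({v} : Set (Fin d → ℤ)) → Fin q | y ⟨v, rfl⟩ = c}
      {y : {w | w ∈ L'} → Fin q | ∀ w, y w ≠ c}
      (by
        have h : Measurable (fun y : ({v} : Set (Fin d → ℤ)) → Fin q => y ⟨v, rfl⟩) :=
          measurable_pi_apply _
        exact h (MeasurableSet.singleton c)) (by
        have : {y : {w | w ∈ L'} → Fin q | ∀ w, y w ≠ c} =
            ⋂ w, {y : {w | w ∈ L'} → Fin q | y w = c}ᶜ := by
          ext y; simp
        rw [this]
        refine MeasurableSet.iInter fun w => ?_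
        have h : Measurable (fun y : {w | w ∈ L'} → Fin q => y w) := measurable_pi_apply w
        exact (h (MeasurableSet.singleton c)).compl)
    have e1 : (fun (x : (Fin d → ℤ) → Fin q) (w : ({v} : Set (Fin d → ℤ))) => x w) ⁻¹'
        {y : ({v} : Set (Fin d → ℤ)) → Fin q | y ⟨v, rfl⟩ = c} = {x | x v = c} := rfl
    have e2 : (fun (x : (Fin d → ℤ) → Fin q) (w : {w | w ∈ L'}) => x w) ⁻¹'
        {y : {w | w ∈ L'} → Fin q | ∀ w, y w ≠ c} = ev c L' := by
      ext x
      constructor
      · intro h w hw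
        exact h ⟨w, hw⟩
      · intro h w
        exact h w w.2
    rw [e1, e2] at hi2
    rw [ZZ, measureReal_def, measureReal_def, measureReal_def, hi2, ENNReal.toReal_mul]
  rw [h2] at h1
  rw [h3, h4, prob_site μ hμ c v] at h1
  rw [ZZ, ← h1]
  unfold ZZ
  ring

/-- The forward unit vector. -/
def fw (v : Fin d → ℤ) (i : Fin d) : Fin d → ℤ := v + Pi.single i 1

lemma adj_fw (v : Fin d → ℤ) (i : Fin d) : LAdj v (fw v i) := by
  unfold LAdj fw
  rw [Finset.sum_eq_single i]
  · simp
  · intro j _ hj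
    simp [hj]
  · intro h
    exact absurd (Finset.mem_univ i) h

lemma fw_inj (v : Fin d → ℤ) (i j : Fin d) (h : fw v i = fw v j) : i = j := by
  by_contra hij
  have h2 := congrFun h i
  simp [fw, hij] at h2

lemma adj_symm (u v : Fin d → ℤ) (h : LAdj u v) : LAdj v u := by
  unfold LAdj at h ⊢
  rw [← h]
  exact Finset.sum_congr rfl fun i _ => abs_sub_comm _ _

lemma ZZ_empty (μ : Measure ((Fin d → ℤ) → Fin q)) [IsProbabilityMeasure μ] (c : Fin q) :
    ZZ μ c (∅ : Finset (Fin d → ℤ)) = 1 := by
  have : ev c (∅ : Finset (Fin d → ℤ)) = univ := by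
    ext x; simp [ev]
  rw [ZZ, this]
  simp

lemma ZZ_pos (μ : Measure ((Fin d → ℤ) → Fin q)) (hμ : IsOneDep d q μ) (c : Fin q) (hd : 1 ≤ d)
    (hp : 0 < μ.real {x | x 0 = c}) (L : Finset (Fin d → ℤ)) : 0 < ZZ μ c L := by
  classical
  have := hμ.prob
  induction hn : L.card using Nat.strong_induction_on generalizing L with
  | _ n ih =>
    subst hn
    rcases L.eq_empty_or_nonempty with rfl | hne
    · rw [ZZ_empty]; norm_num
    · set i0 : Fin d := ⟨0, hd⟩ with hi0
      obtain ⟨v, hv, hmax⟩ := L.exists_max_image (fun v => v i0) hne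
      have hu : fw v i0 ∉ L := by
        intro h
        have h2 := hmax _ h
        simp [fw] at h2
      have h1 := ZZ_rec μ hμ c L (fw v i0) hu
      have h2 : 0 ≤ ZZ μ c (insert (fw v i0) L) := measureReal_nonneg
      have h3 : (L.filter fun w => ¬ LAdj (fw v i0) w).card < L.card := by
        apply Finset.card_lt_card
        rw [Finset.filter_ssubset]
        exact ⟨v, hv, fun h => h (adj_symm _ _ (adj_fw v i0))⟩
      have h4 := ih _ h3 _ rfl
      have h5 : 0 < μ.real {x | x 0 = c} * ZZ μ c (L.filter fun w => ¬ LAdj (fw v i0) w) :=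
        mul_pos hp h4
      linarith

/-- The forward cone of depth `k` without its apex. -/
def InC (k : ℕ) (v w : Fin d → ℤ) : Prop :=
  (∀ i, v i ≤ w i) ∧ 1 ≤ ∑ i, (w i - v i) ∧ ∑ i, (w i - v i) ≤ k

lemma cone_fin (k : ℕ) (v : Fin d → ℤ) : ∃ L : Finset (Fin d → ℤ), ∀ w, InC k v w ↔ w ∈ L := by
  classical
  refine ⟨(Finset.Icc v (fun i => v i + k)).filter (InC k v), fun w => ?_⟩
  rw [Finset.mem_filter]
  constructor
  · intro h
    refine ⟨?_, h⟩
    rw [Finset.mem_Icc]
    refine ⟨h.1, fun i => ?_⟩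
    have h1 : w i - v i ≤ ∑ i, (w i - v i) :=
      Finset.single_le_sum (f := fun i => w i - v i) (fun j _ => by have := h.1 j; simp; omega)
        (Finset.mem_univ i)
    have h2 := h.2.2
    simp only
    omega
  · exact fun h => h.2

lemma sum_fw (v w : Fin d → ℤ) (i : Fin d) :
    ∑ j, (w j - fw v i j) = ∑ j, (w j - v j) - 1 := by
  have : ∀ j, w j - fw v i j = (w j - v j) - (Pi.single i 1 : Fin d → ℤ) j := by
    intro j
    simp [fw]
    ring
  simp only [this, Finset.sum_sub_distrib]
  simp [Finset.sum_pi_single']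

open Classical in
lemma step (μ : Measure ((Fin d → ℤ) → Fin q)) (hμ : IsOneDep d q μ) (c : Fin q) (k : ℕ)
    (a : ℝ) (ha : 0 < a)
    (h : ∀ (v : Fin d → ℤ) (L : Finset (Fin d → ℤ)), v ∉ L → (∀ w, InC k v w → w ∈ L) →
      ZZ μ c (insert v L) ≤ a * ZZ μ c L)
    (v : Fin d → ℤ) (L : Finset (Fin d → ℤ)) (hv : v ∉ L) (hL : ∀ w, InC (k + 1) v w → w ∈ L) :
    ZZ μ c (insert v L) ≤ (1 - μ.real {x | x 0 = c} / a ^ d) * ZZ μ c L := by
  have := hμ.prob
  set p := μ.real {x | x 0 = c} with hp
  have hp0 : 0 ≤ p := measureReal_nonneg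
  -- remove the forward neighbours
  have hrem : ∀ S : Finset (Fin d), ZZ μ c (L.filter (fun w => ∀ i ∉ S, w ≠ fw v i)) ≤
      a ^ S.card * ZZ μ c (L.filter (fun w => ∀ i, w ≠ fw v i)) := by
    intro S
    induction S using Finset.induction_on with
    | empty => simp
    | insert i S hi ih =>
      have hne : ∀ j, fw v i = fw v j → j = i := fun j hj => (fw_inj v i j hj).symm
      have e1 : L.filter (fun w => ∀ j ∉ insert i S, w ≠ fw v j) =
          insert (fw v i) (L.filter (fun w => ∀ j ∉ S, w ≠ fw v j)) := by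
        ext w
        simp only [Finset.mem_filter, Finset.mem_insert, not_or, and_imp]
        constructor
        · rintro ⟨h1, h2⟩
          by_cases hw : w = fw v i
          · exact Or.inl hw
          · refine Or.inr ⟨h1, fun j hj => ?_⟩
            by_cases hji : j = i
            · subst hji; exact hw
            · exact h2 j hji hj
        · rintro (rfl | ⟨h1, h2⟩)
          · refine ⟨?_, fun j hji _ hcon => hji (hne j hcon)⟩
            apply hL
            refine ⟨fun j => ?_, ?_, ?_⟩
            · have : (0 : ℤ) ≤ (Pi.single i 1 : Fin d → ℤ) j := by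
                by_cases hj : j = i
                · subst hj; simp
                · simp [hj]
              simp only [fw, Pi.add_apply]
              omega
            · have : ∑ j, (fw v i j - v j) = 1 := by
                simp [fw, Finset.sum_pi_single']
              omega
            · have : ∑ j, (fw v i j - v j) = 1 := by
                simp [fw, Finset.sum_pi_single']
              rw [this]
              push_cast
              omega
          · exact ⟨h1, fun j _ hj => h2 j hj⟩
      rw [e1, Finset.card_insert_of_notMem hi, pow_succ]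
      have h2 := h (fw v i) (L.filter (fun w => ∀ j ∉ S, w ≠ fw v j)) (by
        rw [Finset.mem_filter]
        rintro ⟨-, h3⟩
        exact h3 i hi rfl) (by
        intro w hw
        obtain ⟨h3, h4, h5⟩ := hw
        rw [sum_fw] at h4 h5
        rw [Finset.mem_filter]
        refine ⟨hL w ⟨fun j => ?_, by omega, by push_cast; omega⟩, ?_⟩
        · have h6 := h3 j
          have : (0 : ℤ) ≤ (Pi.single i 1 : Fin d → ℤ) j := by
            by_cases hj : j = i
            · subst hj; simp
            · simp [hj]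
          simp only [fw, Pi.add_apply] at h6
          omega
        · rintro j - rfl
          have : ∑ l, (fw v j l - v l) = 1 := by
            simp [fw, Finset.sum_pi_single']
          omega)
      calc ZZ μ c (insert (fw v i) (L.filter (fun w => ∀ j ∉ S, w ≠ fw v j)))
          ≤ a * ZZ μ c (L.filter (fun w => ∀ j ∉ S, w ≠ fw v j)) := h2
        _ ≤ a * (a ^ S.card * ZZ μ c (L.filter (fun w => ∀ i, w ≠ fw v i))) :=
            mul_le_mul_of_nonneg_left ih ha.le
        _ = a ^ S.card * a * ZZ μ c (L.filter (fun w => ∀ i, w ≠ fw v i)) := by ring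
  have h1 := hrem Finset.univ
  have e2 : L.filter (fun w => ∀ i ∉ (Finset.univ : Finset (Fin d)), w ≠ fw v i) = L := by
    apply Finset.filter_true_of_mem
    intro w _ i hi
    exact absurd (Finset.mem_univ i) hi
  rw [e2, Finset.card_univ, Fintype.card_fin] at h1
  have h2 : ZZ μ c (L.filter (fun w => ∀ i, w ≠ fw v i)) ≤
      ZZ μ c (L.filter fun w => ¬ LAdj v w) := by
    apply ZZ_anti
    intro w hw
    rw [Finset.mem_filter] at hw ⊢
    refine ⟨hw.1, fun i hi => ?_⟩
    rw [hi] at hw
    exact hw.2 (adj_fw v i)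
  rw [ZZ_rec μ hμ c L v hv]
  have h3 : ZZ μ c L / a ^ d ≤ ZZ μ c (L.filter fun w => ¬ LAdj v w) := by
    rw [div_le_iff₀ (pow_pos ha d)]
    calc ZZ μ c L ≤ a ^ d * ZZ μ c (L.filter (fun w => ∀ i, w ≠ fw v i)) := h1
      _ ≤ a ^ d * ZZ μ c (L.filter fun w => ¬ LAdj v w) :=
          mul_le_mul_of_nonneg_left h2 (pow_pos ha d).le
      _ = ZZ μ c (L.filter fun w => ¬ LAdj v w) * a ^ d := by ring
  have h4 : p * (ZZ μ c L / a ^ d) ≤ p * ZZ μ c (L.filter fun w => ¬ LAdj v w) :=
    mul_le_mul_of_nonneg_left h3 hp0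
  have e3 : (1 - p / a ^ d) * ZZ μ c L = ZZ μ c L - p * (ZZ μ c L / a ^ d) := by ring
  rw [e3]
  linarith

/-- The elementary inequality. -/
lemma amgm (d : ℕ) (hd : 1 ≤ d) (a : ℝ) (ha : 0 < a) :
    ((d : ℝ) + 1) ^ (d + 1) * (a ^ d * (1 - a)) ≤ (d : ℝ) ^ d := by
  have hd' : (0 : ℝ) < d := by exact_mod_cast hd
  have hd1 : (0 : ℝ) < (d : ℝ) + 1 := by linarith
  set t : ℝ := d / (a * (d + 1)) with ht
  have ht0 : 0 < t := by positivity
  have h := one_add_mul_le_pow (a := t - 1) (by linarith) (d + 1)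
  rw [add_sub_cancel, pow_succ] at h
  push_cast at h
  have h2 : d / t = a * (d + 1) := by
    rw [ht]; field_simp
  have h3 : ((d : ℝ) + 1) * (1 - a) ≤ t ^ d := by
    have h4 : (((d : ℝ) + 1) * (1 - a)) * t ≤ t ^ d * t := by
      have h5 : (d : ℝ) = a * (d + 1) * t := by
        rw [← h2]; field_simp
      nlinarith [h, h5]
    exact le_of_mul_le_mul_right h4 ht0
  have h4 : t ^ d * (a ^ d * ((d : ℝ) + 1) ^ d) = (d : ℝ) ^ d := by
    rw [ht, div_pow, ← mul_pow]
    field_simp
  calc ((d : ℝ) + 1) ^ (d + 1) * (a ^ d * (1 - a))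
      = (((d : ℝ) + 1) * (1 - a)) * (a ^ d * ((d : ℝ) + 1) ^ d) := by ring
    _ ≤ t ^ d * (a ^ d * ((d : ℝ) + 1) ^ d) :=
        mul_le_mul_of_nonneg_right h3 (by positivity)
    _ = (d : ℝ) ^ d := h4

theorem low : LowStatement := by
  classical
  intro d q μ hd hμ
  have := hμ.prob
  have hq : 0 < q := by
    by_contra h
    have hq0 : q = 0 := by omega
    subst hq0
    have h1 : (univ : Set ((Fin d → ℤ) → Fin 0)) = ∅ := by
      ext x
      exact (x 0).elim0
    have h2 : μ univ = 1 := measure_univ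
    rw [h1] at h2
    simp at h2
  -- a popular colour
  have hsum : ∑ c : Fin q, μ.real {x | x 0 = c} = 1 := by
    have h1 : (univ : Set ((Fin d → ℤ) → Fin q)) = ⋃ c : Fin q, {x | x 0 = c} := by
      ext x; simp
    have h2 : μ.real univ = ∑ c : Fin q, μ.real {x | x 0 = c} := by
      rw [h1, measureReal_iUnion_fintype]
      · intro c c' hcc
        rw [Function.onFun, Set.disjoint_left]
        intro x hx hx'
        exact hcc (Eq.trans (Eq.symm hx) hx')
      · exact fun c => meas_eq c 0
    rw [← h2]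
    simp
  obtain ⟨c, hc⟩ : ∃ c : Fin q, 1 / (q : ℝ) ≤ μ.real {x | x 0 = c} := by
    by_contra hcon
    push Not at hcon
    have hq' : (0 : ℝ) < q := by exact_mod_cast hq
    have hne : (Finset.univ : Finset (Fin q)).Nonempty := ⟨⟨0, hq⟩, Finset.mem_univ _⟩
    have h1 := Finset.sum_lt_sum_of_nonempty hne fun c _ => hcon c
    rw [hsum, Finset.sum_const, Finset.card_univ, Fintype.card_fin, nsmul_eq_mul] at h1
    rw [mul_one_div_cancel hq'.ne'] at h1
    exact lt_irrefl _ h1
  set p := μ.real {x | x 0 = c} with hp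
  have hq' : (0 : ℝ) < q := by exact_mod_cast hq
  have hp0 : 0 < p := lt_of_lt_of_le (by positivity) hc
  have hd' : (0 : ℝ) < d := by exact_mod_cast hd
  set ps : ℝ := (d : ℝ) ^ d / ((d : ℝ) + 1) ^ (d + 1) with hps
  have hmain : p ≤ ps := by
    by_contra hcon
    push Not at hcon
    have key : ∀ k : ℕ, ∃ a : ℝ, 0 < a ∧ a ≤ 1 - k * (p - ps) ∧
        ∀ (v : Fin d → ℤ) (L : Finset (Fin d → ℤ)), v ∉ L → (∀ w, InC k v w → w ∈ L) →
          ZZ μ c (insert v L) ≤ a * ZZ μ c L := by
      intro k
      induction k with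
      | zero =>
        refine ⟨1, by norm_num, by simp, fun v L _ _ => ?_⟩
        rw [one_mul]
        exact ZZ_anti μ c _ _ (Finset.subset_insert v L)
      | succ k ih =>
        obtain ⟨a, ha, ha1, h⟩ := ih
        have hst := step μ hμ c k a ha h
        refine ⟨1 - p / a ^ d, ?_, ?_, hst⟩
        · obtain ⟨L, hL⟩ := cone_fin (k + 1) (0 : Fin d → ℤ)
          have h0 : (0 : Fin d → ℤ) ∉ L := by
            rw [← hL]
            rintro ⟨-, h1, -⟩
            simp at h1
          have h1 := hst 0 L h0 fun w hw => (hL w).1 hw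
          have h2 := ZZ_pos μ hμ c hd hp0 (insert 0 L)
          have h3 := ZZ_pos μ hμ c hd hp0 L
          by_contra hneg
          push Not at hneg
          have : (1 - p / a ^ d) * ZZ μ c L ≤ 0 := mul_nonpos_of_nonpos_of_nonneg hneg h3.le
          linarith
        · have hak : a ≤ 1 := by
            have : 0 ≤ (k : ℝ) * (p - ps) := mul_nonneg (Nat.cast_nonneg k) (by linarith)
            linarith
          have h1 := amgm d hd a ha
          have h2 : a ^ d * (1 - a) ≤ ps := by
            rw [hps, le_div_iff₀ (by positivity)]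
            linarith
          have h3 : 0 < a ^ d := pow_pos ha d
          have h4 : a ^ d ≤ 1 := pow_le_one₀ ha.le hak
          have h5 : a - (1 - p / a ^ d) = (p - a ^ d * (1 - a)) / a ^ d := by
            field_simp
            ring
          have h6 : p - ps ≤ (p - a ^ d * (1 - a)) / a ^ d := by
            rw [le_div_iff₀ h3]
            calc (p - ps) * a ^ d ≤ (p - ps) * 1 :=
                  mul_le_mul_of_nonneg_left h4 (by linarith)
              _ ≤ p - a ^ d * (1 - a) := by linarith
          push_cast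
          linarith
    obtain ⟨k, hk⟩ := exists_nat_gt (1 / (p - ps))
    obtain ⟨a, ha, ha1, -⟩ := key k
    have hpos : 0 < p - ps := by linarith
    rw [div_lt_iff₀ hpos] at hk
    linarith
  have h1 : 1 / (q : ℝ) ≤ ps := hc.trans hmain
  rw [hps, div_le_div_iff₀ hq' (by positivity), one_mul] at h1
  have h2 : (((d + 1) ^ (d + 1) : ℕ) : ℝ) ≤ ((q * d ^ d : ℕ) : ℝ) := by
    push_cast
    linarith
  exact_mod_cast h2

end Pool.Agent.OD.H54L
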