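import Pool.Agent.Helper42_OD.Defs

/-! Module MEAS of squad OD: Kolmogorov extension of a consistent family over a finite alphabet. -/

set_option autoImplicit false

open MeasureTheory ProbabilityTheory Set

namespace Pool.Agent.OD.H54

variable {d q : ℕ}

/-- Extension of a finite configuration by a fixed letter. -/
def ex (hq : 1 ≤ q) (L : Finset (Fin d → ℤ)) (y : L → Fin q) (v : Fin d → ℤ) : Fin q :=
  if h : v ∈ L then y ⟨v, h⟩ else ⟨0, hq⟩

lemma ex_mem (hq : 1 ≤ q) (L : Finset (Fin d → ℤ)) (y : L → Fin q) (v : Fin d → ℤ) (h : v ∈ L) :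
    ex hq L y v = y ⟨v, h⟩ := by
  simp [ex, h]

/-- The finite dimensional laws. -/
noncomputable def PL (hq : 1 ≤ q) (p : Finset (Fin d → ℤ) → ((Fin d → ℤ) → Fin q) → ℝ)
    (L : Finset (Fin d → ℤ)) : Measure (L → Fin q) :=
  ∑ y : (L → Fin q), ENNReal.ofReal (p L (ex hq L y)) • Measure.dirac y

lemma PL_singleton (hq : 1 ≤ q) (p : Finset (Fin d → ℤ) → ((Fin d → ℤ) → Fin q) → ℝ)
    (L : Finset (Fin d → ℤ)) (z : L → Fin q) :
    PL hq p L {z} = ENNReal.ofReal (p L (ex hq L z)) := by
  classical
  rw [PL, Measure.finsetSum_apply]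
  rw [Finset.sum_eq_single z]
  · simp
  · intro y _ hy
    simp [hy]
  · intro h
    exact absurd (Finset.mem_univ z) h

lemma PL_apply (hq : 1 ≤ q) (p : Finset (Fin d → ℤ) → ((Fin d → ℤ) → Fin q) → ℝ)
    (L : Finset (Fin d → ℤ)) (S : Set (L → Fin q)) [DecidablePred (· ∈ S)] :
    PL hq p L S = ∑ y : (L → Fin q), if y ∈ S then ENNReal.ofReal (p L (ex hq L y)) else 0 := by
  rw [PL, Measure.finsetSum_apply]
  refine Finset.sum_congr rfl fun y _ => ?_
  rw [Measure.smul_apply, Measure.dirac_apply' _ (MeasurableSet.of_discrete)]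
  by_cases h : y ∈ S <;> simp [h]

instance (hq : 1 ≤ q) (p : Finset (Fin d → ℤ) → ((Fin d → ℤ) → Fin q) → ℝ)
    (L : Finset (Fin d → ℤ)) : IsFiniteMeasure (PL hq p L) := by
  constructor
  classical
  rw [PL_apply]
  simp only [mem_univ, if_true]
  exact ENNReal.sum_lt_top.2 fun y _ => ENNReal.ofReal_lt_top

lemma PL_erase (hq : 1 ≤ q) (p : Finset (Fin d → ℤ) → ((Fin d → ℤ) → Fin q) → ℝ)
    (hp : IsFam d q p) (I J : Finset (Fin d → ℤ)) (v : Fin d → ℤ) (hv : v ∉ J)
    (hI : I = insert v J) (hJI : J ⊆ I) :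
    PL hq p J = (PL hq p I).map
      (Finset.restrict₂ (π := fun _ : Fin d → ℤ => Fin q) hJI) := by
  classical
  rw [Measure.ext_iff_singleton]
  intro z
  rw [PL_singleton, Measure.map_apply Measurable.of_discrete
    (MeasurableSet.of_discrete), PL_apply]
  have hvI : v ∈ I := by rw [hI]; exact Finset.mem_insert_self v J
  have h1 : ∑ y : (I → Fin q), (if y ∈ (Finset.restrict₂ (π := fun _ : Fin d → ℤ => Fin q) hJI) ⁻¹' {z} then
      ENNReal.ofReal (p I (ex hq I y)) else 0) =
      ∑ b : Fin q, ENNReal.ofReal (p (insert v J) (Function.update (ex hq J z) v b)) := by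
    rw [← Finset.sum_filter]
    symm
    refine Finset.sum_nbij' (fun b : Fin q => (fun w : I =>
      Function.update (ex hq J z) v b w)) (fun y : (I → Fin q) => y ⟨v, hvI⟩) ?_ ?_ ?_ ?_ ?_
    · intro b _
      rw [Finset.mem_filter]
      refine ⟨Finset.mem_univ _, ?_⟩
      rw [mem_preimage, mem_singleton_iff]
      funext w
      rw [Finset.restrict₂]
      change Function.update (ex hq J z) v b (w : Fin d → ℤ) = z w
      rw [Function.update_of_ne, ex_mem hq J z w w.2]
      rintro h
      exact hv (h ▸ w.2)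
    · intro y _; exact Finset.mem_univ _
    · intro b _
      simp
    · intro y hy
      rw [Finset.mem_filter, mem_preimage, mem_singleton_iff] at hy
      funext w
      by_cases hw : (w : Fin d → ℤ) = v
      · have : w = ⟨v, hvI⟩ := Subtype.ext hw
        subst this
        simp
      · have hwJ : (w : Fin d → ℤ) ∈ J := by
          have h4 : ∀ u : Fin d → ℤ, u ∈ I → u = v ∨ u ∈ J := by
            intro u hu
            rw [hI, Finset.mem_insert] at hu
            exact hu
          exact (h4 w w.2).resolve_left hw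
        change Function.update (ex hq J z) v (y ⟨v, hvI⟩) (w : Fin d → ℤ) = y w
        rw [Function.update_of_ne hw, ex_mem hq J z w hwJ, ← hy.2]
        rfl
    · intro b _
      congr 1
      rw [← hI]
      apply hp.dep
      intro w hw
      rw [ex_mem hq I _ w hw]
  rw [h1, ← ENNReal.ofReal_sum_of_nonneg (fun b _ => hp.nonneg _ _), hp.sum J _ v hv]

lemma PL_proj (hq : 1 ≤ q) (p : Finset (Fin d → ℤ) → ((Fin d → ℤ) → Fin q) → ℝ)
    (hp : IsFam d q p) : IsProjectiveMeasureFamily (α := fun _ : Fin d → ℤ => Fin q)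
      (PL hq p) := by
  classical
  intro I J hJI
  induction hn : (I \ J).card generalizing I with
  | zero =>
    have h0 : I \ J = ∅ := Finset.card_eq_zero.1 hn
    have hIJ : I = J := Finset.Subset.antisymm (Finset.sdiff_eq_empty_iff_subset.1 h0) hJI
    subst hIJ
    have : (Finset.restrict₂ (π := fun _ : Fin d → ℤ => Fin q) hJI) = id := rfl
    rw [this, Measure.map_id]
  | succ n ih =>
    have hne : (I \ J).Nonempty := by
      rw [← Finset.card_pos, hn]; omega
    obtain ⟨v, hv⟩ := hne
    rw [Finset.mem_sdiff] at hv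
    have hJ' : J ⊆ I.erase v := by
      intro w hw
      rw [Finset.mem_erase]
      exact ⟨fun h => hv.2 (h ▸ hw), hJI hw⟩
    have hI' : I = insert v (I.erase v) := (Finset.insert_erase hv.1).symm
    have hc : ((I.erase v) \ J).card = n := by
      have : (I.erase v) \ J = (I \ J).erase v := by
        ext w
        simp only [Finset.mem_sdiff, Finset.mem_erase]
        tauto
      rw [this, Finset.card_erase_of_mem (Finset.mem_sdiff.2 hv), hn]
      rfl
    rw [ih (I.erase v) hJ' hc, PL_erase hq p hp I (I.erase v) v (Finset.notMem_erase v I) hI'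
      (Finset.erase_subset v I), Measure.map_map Measurable.of_discrete
      Measurable.of_discrete]
    rfl

/-- The content on cylinders. -/
noncomputable def cont (hq : 1 ≤ q) (p : Finset (Fin d → ℤ) → ((Fin d → ℤ) → Fin q) → ℝ)
    (hp : IsFam d q p) :
    AddContent ENNReal (measurableCylinders (fun _ : Fin d → ℤ => Fin q)) :=
  projectiveFamilyContent (PL_proj hq p hp)

lemma cont_sub (hq : 1 ≤ q) (p : Finset (Fin d → ℤ) → ((Fin d → ℤ) → Fin q) → ℝ)
    (hp : IsFam d q p) : (cont hq p hp).IsSigmaSubadditive := by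
  refine isSigmaSubadditive_of_addContent_iUnion_eq_tsum
    isSetRing_measurableCylinders (fun f hf hf_Union hf' ↦ ?_)
  refine addContent_iUnion_eq_sum_of_tendsto_zero isSetRing_measurableCylinders
    (cont hq p hp) (fun s hs ↦ projectiveFamilyContent_ne_top _) ?_ hf hf_Union hf'
  intro A hA hanti hinter
  have hcl : ∀ n, IsClosed (A n) := by
    intro n
    obtain ⟨I, S, hS, hAS⟩ := (mem_measurableCylinders _).1 (hA n)
    rw [hAS, cylinder]
    exact IsClosed.preimage (Finset.continuous_restrict I) (isClosed_discrete S)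
  have hex : ∃ n, A n = ∅ := by
    by_contra hcon
    push Not at hcon
    have := IsCompact.nonempty_iInter_of_sequence_nonempty_isCompact_isClosed A
      (fun i => hanti (Nat.le_succ i)) hcon ((hcl 0).isCompact) hcl
    rw [hinter] at this
    exact Set.not_nonempty_empty this
  obtain ⟨n, hn⟩ := hex
  apply tendsto_const_nhds.congr'
  filter_upwards [Filter.eventually_ge_atTop n] with m hm
  have : A m = ∅ := Set.subset_empty_iff.1 (hn ▸ hanti hm)
  rw [this, addContent_empty]

/-- The limit measure. -/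
noncomputable def mu (hq : 1 ≤ q) (p : Finset (Fin d → ℤ) → ((Fin d → ℤ) → Fin q) → ℝ)
    (hp : IsFam d q p) : Measure ((Fin d → ℤ) → Fin q) :=
  (cont hq p hp).measure isSetSemiring_measurableCylinders
      generateFrom_measurableCylinders.ge (cont_sub hq p hp)

lemma mu_lim (hq : 1 ≤ q) (p : Finset (Fin d → ℤ) → ((Fin d → ℤ) → Fin q) → ℝ)
    (hp : IsFam d q p) : IsProjectiveLimit (α := fun _ : Fin d → ℤ => Fin q)
      (mu hq p hp) (PL hq p) := by
  intro I
  ext s hs
  rw [Measure.map_apply (Finset.measurable_restrict I) hs, mu, AddContent.measure_eq,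
    ← cylinder, cont, projectiveFamilyContent_cylinder _ hs]
  · exact generateFrom_measurableCylinders.symm
  · exact cylinder_mem_measurableCylinders _ _ hs

lemma mu_prob (hq : 1 ≤ q) (p : Finset (Fin d → ℤ) → ((Fin d → ℤ) → Fin q) → ℝ)
    (hp : IsFam d q p) : IsProbabilityMeasure (mu hq p hp) := by
  constructor
  rw [(mu_lim hq p hp).measure_univ_eq ∅]
  have : (univ : Set ((∅ : Finset (Fin d → ℤ)) → Fin q)) = {fun v => absurd v.2 (Finset.notMem_empty _)} := by
    ext y
    simp only [mem_univ, mem_singleton_iff, true_iff]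
    funext v
    exact absurd v.2 (Finset.notMem_empty _)
  rw [this, PL_singleton, hp.empty, ENNReal.ofReal_one]

/-- Cylinder probabilities. -/
lemma mu_cyl (hq : 1 ≤ q) (p : Finset (Fin d → ℤ) → ((Fin d → ℤ) → Fin q) → ℝ)
    (hp : IsFam d q p) (L : Finset (Fin d → ℤ)) (x : (Fin d → ℤ) → Fin q) :
    mu hq p hp {ω | ∀ v ∈ L, ω v = x v} = ENNReal.ofReal (p L x) := by
  have h1 : {ω : (Fin d → ℤ) → Fin q | ∀ v ∈ L, ω v = x v} =
      cylinder (α := fun _ : Fin d → ℤ => Fin q) L {L.restrict x} := by
    ext ω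
    simp only [mem_ofPred_eq, mem_cylinder, mem_singleton_iff]
    constructor
    · intro h
      funext v
      exact h v v.2
    · intro h v hv
      exact congrFun h ⟨v, hv⟩
  rw [h1, (mu_lim hq p hp).measure_cylinder L (MeasurableSet.of_discrete), PL_singleton]
  congr 1
  apply hp.dep
  intro v hv
  rw [ex_mem hq L _ v hv]
  rfl

lemma shift_meas (a : Fin d → ℤ) :
    Measurable (fun (x : (Fin d → ℤ) → Fin q) v => x (v + a)) :=
  measurable_pi_lambda _ fun v => measurable_pi_apply (v + a)

theorem meas : MeasStatement := by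
  classical
  intro d q p hq hp
  have := mu_prob hq p hp
  refine ⟨mu hq p hp, mu_prob hq p hp, ?_, ?_, ?_⟩
  · -- proper
    rw [ae_all_iff]
    intro u
    rw [ae_all_iff]
    intro v
    by_cases huv : LAdj u v
    · simp only [huv, true_implies]
      rw [ae_iff]
      have h1 : {ω : (Fin d → ℤ) → Fin q | ¬ ω u ≠ ω v} ⊆
          ⋃ c : Fin q, {ω | ∀ w ∈ ({u, v} : Finset (Fin d → ℤ)), ω w = (fun _ => c) w} := by
        intro ω hω
        have hω' : ω u = ω v := by simpa using hω
        rw [mem_iUnion]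
        refine ⟨ω u, fun w hw => ?_⟩
        rw [Finset.mem_insert, Finset.mem_singleton] at hw
        rcases hw with rfl | rfl
        · rfl
        · exact hω'.symm
      refine measure_mono_null h1 (measure_iUnion_null fun c => ?_)
      rw [mu_cyl, hp.proper {u, v} _ u v (by simp) (by simp) huv rfl, ENNReal.ofReal_zero]
    · simp [huv]
  · -- stationary
    intro a
    refine IsProjectiveLimit.unique (P := PL hq p) ?_ (mu_lim hq p hp)
    intro I
    rw [Measure.map_map (Finset.measurable_restrict I) (shift_meas a),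
      Measure.ext_iff_singleton]
    intro z
    rw [Measure.map_apply ((Finset.measurable_restrict I).comp (shift_meas a))
      (MeasurableSet.of_discrete), PL_singleton]
    set x : (Fin d → ℤ) → Fin q := fun v => ex hq I z (v - a) with hx
    have h1 : ((I.restrict : ((Fin d → ℤ) → Fin q) → (I → Fin q)) ∘
        (fun (x : (Fin d → ℤ) → Fin q) v => x (v + a))) ⁻¹' {z} =
        {ω | ∀ v ∈ I.image (fun v => v + a), ω v = x v} := by
      ext ω
      simp only [mem_preimage, mem_singleton_iff, mem_ofPred_eq, Function.comp_apply,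
        Finset.mem_image, forall_exists_index, and_imp, forall_apply_eq_imp_iff₂]
      constructor
      · intro h v hv
        rw [hx]
        simp only [add_sub_cancel_right]
        rw [ex_mem hq I z v hv, ← h]
        rfl
      · intro h
        funext v
        have := h v v.2
        rw [hx] at this
        simp only [add_sub_cancel_right] at this
        rw [ex_mem hq I z v v.2] at this
        exact this
    rw [h1, mu_cyl, hp.shift]
    congr 1
    apply hp.dep
    intro v _
    simp [hx]
  · -- independence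
    intro A B hAB
    refine IndepFun.process_indepFun_process (X := fun (v : A) (ω : (Fin d → ℤ) → Fin q) => ω v)
      (Y := fun (v : B) (ω : (Fin d → ℤ) → Fin q) => ω v)
      (fun v => measurable_pi_apply _) (fun v => measurable_pi_apply _) ?_
    intro I J
    have hmI : Measurable (fun (ω : (Fin d → ℤ) → Fin q) (i : I) => ω i) :=
      measurable_pi_lambda _ fun v => measurable_pi_apply _
    have hmJ : Measurable (fun (ω : (Fin d → ℤ) → Fin q) (i : J) => ω i) :=
      measurable_pi_lambda _ fun v => measurable_pi_apply _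
    rw [indepFun_iff_map_prod_eq_prod_map_map hmI.aemeasurable hmJ.aemeasurable,
      Measure.ext_iff_singleton]
    rintro ⟨y, z⟩
    rw [← Set.singleton_prod_singleton, Measure.prod_prod,
      Measure.map_apply (hmI.prodMk hmJ) (MeasurableSet.of_discrete),
      Measure.map_apply hmI (MeasurableSet.of_discrete),
      Measure.map_apply hmJ (MeasurableSet.of_discrete)]
    set LI : Finset (Fin d → ℤ) := I.image (fun v : A => (v : Fin d → ℤ)) with hLI
    set LJ : Finset (Fin d → ℤ) := J.image (fun v : B => (v : Fin d → ℤ)) with hLJ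
    set x : (Fin d → ℤ) → Fin q := fun v => if h : ∃ hA : v ∈ A, (⟨v, hA⟩ : A) ∈ I then
      y ⟨⟨v, h.1⟩, h.2⟩ else if h : ∃ hB : v ∈ B, (⟨v, hB⟩ : B) ∈ J then
      z ⟨⟨v, h.1⟩, h.2⟩ else ⟨0, hq⟩ with hx
    have hxI : ∀ i : I, x i = y i := by
      intro i
      have h : ∃ hA : ((i : A) : Fin d → ℤ) ∈ A, (⟨((i : A) : Fin d → ℤ), hA⟩ : A) ∈ I :=
        ⟨i.1.2, i.2⟩
      simp only [hx]
      rw [dif_pos h]
    have hxJ : ∀ i : J, x i = z i := by
      intro i
      have h : ∃ hB : ((i : B) : Fin d → ℤ) ∈ B, (⟨((i : B) : Fin d → ℤ), hB⟩ : B) ∈ J :=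
        ⟨i.1.2, i.2⟩
      have h' : ¬ ∃ hA : ((i : B) : Fin d → ℤ) ∈ A, (⟨((i : B) : Fin d → ℤ), hA⟩ : A) ∈ I := by
        rintro ⟨hA, -⟩
        exact (hAB _ hA _ i.1.2).1 rfl
      simp only [hx]
      rw [dif_neg h', dif_pos h]
    have e1 : (fun (ω : (Fin d → ℤ) → Fin q) (i : I) => ω i) ⁻¹' {y} =
        {ω | ∀ v ∈ LI, ω v = x v} := by
      ext ω
      simp only [mem_preimage, mem_singleton_iff, mem_ofPred_eq, hLI, Finset.mem_image,
        forall_exists_index, and_imp, forall_apply_eq_imp_iff₂]
      constructor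
      · intro h v hv
        have := congrFun h ⟨v, hv⟩
        rw [hxI ⟨v, hv⟩]
        exact this
      · intro h
        funext i
        rw [← hxI i]
        exact h i i.2
    have e2 : (fun (ω : (Fin d → ℤ) → Fin q) (i : J) => ω i) ⁻¹' {z} =
        {ω | ∀ v ∈ LJ, ω v = x v} := by
      ext ω
      simp only [mem_preimage, mem_singleton_iff, mem_ofPred_eq, hLJ, Finset.mem_image,
        forall_exists_index, and_imp, forall_apply_eq_imp_iff₂]
      constructor
      · intro h v hv
        have := congrFun h ⟨v, hv⟩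
        rw [hxJ ⟨v, hv⟩]
        exact this
      · intro h
        funext i
        rw [← hxJ i]
        exact h i i.2
    have e3 : (fun ω : (Fin d → ℤ) → Fin q => ((fun (i : I) => ω i), (fun (i : J) => ω i))) ⁻¹'
        ({y} ×ˢ {z}) = {ω | ∀ v ∈ LI ∪ LJ, ω v = x v} := by
      ext ω
      have f1 : ω ∈ (fun (ω : (Fin d → ℤ) → Fin q) (i : I) => ω i) ⁻¹' {y} ↔
        ω ∈ {ω | ∀ v ∈ LI, ω v = x v} := by rw [e1]
      have f2 : ω ∈ (fun (ω : (Fin d → ℤ) → Fin q) (i : J) => ω i) ⁻¹' {z} ↔
        ω ∈ {ω | ∀ v ∈ LJ, ω v = x v} := by rw [e2]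
      rw [mem_preimage, mem_prod]
      simp only [mem_preimage, mem_ofPred_eq] at f1 f2
      rw [f1, f2]
      simp only [mem_ofPred_eq, Finset.mem_union]
      constructor
      · rintro ⟨h1, h2⟩ v (hv | hv)
        · exact h1 v hv
        · exact h2 v hv
      · intro h
        exact ⟨fun v hv => h v (Or.inl hv), fun v hv => h v (Or.inr hv)⟩
    rw [e1, e2, e3, mu_cyl, mu_cyl, mu_cyl, hp.mul LI LJ x, ENNReal.ofReal_mul (hp.nonneg _ _)]
    intro u hu v hv
    obtain ⟨u', -, rfl⟩ := Finset.mem_image.1 hu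
    obtain ⟨v', -, rfl⟩ := Finset.mem_image.1 hv
    exact hAB _ u'.2 _ v'.2

end Pool.Agent.OD.H54
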